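import Pool.Agent.H18.CGR.Stmts

/-! Board cgr, row RRC: the recursion from the right. -/

set_option autoImplicit false

noncomputable section

namespace Pool.CGR

namespace RRC

theorem tl_nil {α : Type} [DecidableEq α] {E : Type*} [Zero E] (j : α) (F : List α → E) :
    tl j [] F = 0 := rfl

theorem tl_append {α : Type} [DecidableEq α] {E : Type*} [Zero E] (j b : α) (u : List α)
    (F : List α → E) : tl j (u ++ [b]) F = if b = j then F u else 0 := by
  unfold tl
  have h : (u ++ [b]).reverse = b :: u.reverse := by simp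
  rw [h]
  change (if b = j then F u.reverse.reverse else 0) = _
  rw [List.reverse_reverse]

theorem hd_cons {α : Type} [DecidableEq α] {E : Type*} [Zero E] (j b : α) (u : List α)
    (F : List α → E) : hd j (b :: u) F = if b = j then F u else 0 := rfl

variable {m : ℕ} {E : Type} [NormedAddCommGroup E] [NormedSpace ℂ E]

theorem hd_bd (i : Fin m) (F : List (Fin m) → E) (B : ℝ) (hB : 0 ≤ B)
    (hF : ∀ u, ‖F u‖ ≤ B * 4 ^ u.length) (u : List (Fin m)) :
    ‖hd i u F‖ ≤ B * 4 ^ u.length := by
  rcases u with _ | ⟨a, u⟩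
  · change ‖(0 : E)‖ ≤ _
    rw [norm_zero]
    positivity
  · rw [hd_cons]
    split_ifs
    · refine (hF u).trans (mul_le_mul_of_nonneg_left ?_ hB)
      exact pow_le_pow_right₀ (by norm_num) (by simp)
    · rw [norm_zero]
      positivity

theorem tl_bd (i : Fin m) (F : List (Fin m) → E) (B : ℝ) (hB : 0 ≤ B)
    (hF : ∀ u, ‖F u‖ ≤ B * 4 ^ u.length) (u : List (Fin m)) :
    ‖tl i u F‖ ≤ B * 4 ^ u.length := by
  unfold tl
  have h := hd_bd i (fun w => F w.reverse) B hB (fun w => by
    have := hF w.reverse
    rwa [List.length_reverse] at this) u.reverse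
  rwa [List.length_reverse] at h

theorem sm (k : Fin m → List (Fin m) → ℂ) (hK : Kb k) [CompleteSpace E] (i : Fin m)
    (H : List (Fin m) → E) (C : ℝ) (hH : ∀ v, ‖H v‖ ≤ C * 4 ^ v.length) :
    Summable (fun v => k i v • H v) ∧ ‖∑' v, k i v • H v‖ ≤ C / 4 := by
  have hC : 0 ≤ C := by
    have := (norm_nonneg _).trans (hH [])
    simpa using this
  have hs := (hK i).1.mul_left C
  have hb : ∀ v, ‖k i v • H v‖ ≤ C * (‖k i v‖ * 4 ^ v.length) := by
    intro v
    rw [norm_smul]
    calc ‖k i v‖ * ‖H v‖ ≤ ‖k i v‖ * (C * 4 ^ v.length) :=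
          mul_le_mul_of_nonneg_left (hH v) (norm_nonneg _)
      _ = C * (‖k i v‖ * 4 ^ v.length) := by ring
  refine ⟨Summable.of_norm_bounded hs hb, ?_⟩
  refine (tsum_of_norm_bounded hs.hasSum hb).trans ?_
  rw [tsum_mul_left]
  have := mul_le_mul_of_nonneg_left (hK i).2 hC
  linarith

/-- the candidate -/
def G (k : Fin m → List (Fin m) → ℂ) (Y : Fin m → E → E) (e : E) (F : List (Fin m) → E)
    (w : List (Fin m)) : E :=
  match w.reverse with
  | [] => e
  | j :: r => Y j (F r.reverse) - tl j r.reverse F - ∑' v, k j v • F (r.reverse ++ v)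

theorem G_nil (k : Fin m → List (Fin m) → ℂ) (Y : Fin m → E → E) (e : E) (F : List (Fin m) → E) :
    G k Y e F [] = e := rfl

theorem G_append (k : Fin m → List (Fin m) → ℂ) (Y : Fin m → E → E) (e : E)
    (F : List (Fin m) → E) (u : List (Fin m)) (j : Fin m) :
    G k Y e F (u ++ [j]) = Y j (F u) - tl j u F - ∑' v, k j v • F (u ++ v) := by
  unfold G
  have h : (u ++ [j]).reverse = j :: u.reverse := by simp
  rw [h]
  change Y j (F u.reverse.reverse) - tl j u.reverse.reverse F -
    ∑' v, k j v • F (u.reverse.reverse ++ v) = _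
  rw [List.reverse_reverse]

theorem len_bd (F : List (Fin m) → E) (B : ℝ) (hF : ∀ u, ‖F u‖ ≤ B * 4 ^ u.length)
    (u v : List (Fin m)) : ‖F (v ++ u)‖ ≤ (B * 4 ^ u.length) * 4 ^ v.length := by
  refine (hF _).trans (le_of_eq ?_)
  rw [List.length_append, pow_add]
  ring

theorem len_bd' (F : List (Fin m) → E) (B : ℝ) (hF : ∀ u, ‖F u‖ ≤ B * 4 ^ u.length)
    (u v : List (Fin m)) : ‖F (u ++ v)‖ ≤ (B * 4 ^ u.length) * 4 ^ v.length := by
  refine (hF _).trans (le_of_eq ?_)
  rw [List.length_append, pow_add]
  ring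

/-- Fubini -/
theorem fub (k : Fin m → List (Fin m) → ℂ) (hK : Kb k) [CompleteSpace E] (i j : Fin m)
    (F : List (Fin m) → E) (B : ℝ) (hF : ∀ u, ‖F u‖ ≤ B * 4 ^ u.length) (u : List (Fin m)) :
    ∑' z, k j z • ∑' v, k i v • F (v ++ (u ++ z)) =
      ∑' v, k i v • ∑' z, k j z • F ((v ++ u) ++ z) := by
  have hs : Summable (Function.uncurry fun z v : List (Fin m) =>
      k j z • k i v • F (v ++ (u ++ z))) := by
    have h1 := ((hK j).1.mul_of_nonneg (hK i).1 (fun v => by positivity)
      (fun v => by positivity)).mul_left (B * 4 ^ u.length)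
    refine Summable.of_norm_bounded h1 ?_
    rintro ⟨z, v⟩
    change ‖k j z • k i v • F (v ++ (u ++ z))‖ ≤
      (B * 4 ^ u.length) * ((‖k j z‖ * 4 ^ z.length) * (‖k i v‖ * 4 ^ v.length))
    rw [norm_smul, norm_smul]
    have h2 := hF (v ++ (u ++ z))
    rw [List.length_append, List.length_append, pow_add, pow_add] at h2
    calc ‖k j z‖ * (‖k i v‖ * ‖F (v ++ (u ++ z))‖)
        ≤ ‖k j z‖ * (‖k i v‖ * (B * (4 ^ v.length * (4 ^ u.length * 4 ^ z.length)))) := by
          gcongr
      _ = _ := by ring
  have h1 : ∀ z, k j z • ∑' v, k i v • F (v ++ (u ++ z)) =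
      ∑' v, k j z • k i v • F (v ++ (u ++ z)) := fun z =>
    ((sm k hK i (fun v => F (v ++ (u ++ z))) _ (len_bd F B hF (u ++ z))).1.tsum_const_smul
      (k j z)).symm
  have h2 : ∀ v, k i v • ∑' z, k j z • F ((v ++ u) ++ z) =
      ∑' z, k j z • k i v • F (v ++ (u ++ z)) := by
    intro v
    rw [← (sm k hK j (fun z => F ((v ++ u) ++ z)) _ (len_bd' F B hF (v ++ u))).1.tsum_const_smul
      (k i v)]
    refine tsum_congr fun z => ?_
    rw [smul_comm, List.append_assoc]
  simp only [h1, h2]
  exact hs.tsum_comm.symm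

/-- the sums over the words with a given first and last letter -/
theorem cyc (k : Fin m → List (Fin m) → ℂ) (hC : CY k) (i j : Fin m)
    (F : List (Fin m) → E) : ∑' z, k j z • hd i z F = ∑' v, k i v • tl j v F := by
  have h1 : ∑' w : List (Fin m), k j (i :: w) • F w = ∑' z, k j z • hd i z F := by
    have hinj : Function.Injective (fun w : List (Fin m) => i :: w) := List.cons_injective
    have h := hinj.tsum_eq (f := fun z => k j z • hd i z F) (by
      intro z hz
      rcases z with _ | ⟨a, w⟩
      · exfalso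
        apply hz
        change k j [] • (0 : E) = 0
        rw [smul_zero]
      · by_cases ha : a = i
        · exact ⟨w, by rw [ha]⟩
        · exfalso
          apply hz
          change k j (a :: w) • hd i (a :: w) F = 0
          rw [hd_cons, if_neg ha, smul_zero])
    rw [← h]
    refine tsum_congr fun w => ?_
    rw [hd_cons, if_pos rfl]
  have h2 : ∑' w : List (Fin m), k i (w ++ [j]) • F w = ∑' v, k i v • tl j v F := by
    have hinj : Function.Injective (fun w : List (Fin m) => w ++ [j]) :=
      fun a b h => List.append_cancel_right h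
    have h := hinj.tsum_eq (f := fun z => k i z • tl j z F) (by
      intro z hz
      rcases List.eq_nil_or_concat z with rfl | ⟨w, a, rfl⟩
      · exfalso
        apply hz
        change k i [] • tl j [] F = 0
        rw [tl_nil, smul_zero]
      · rw [List.concat_eq_append] at hz ⊢
        by_cases ha : a = j
        · exact ⟨w, by rw [ha]⟩
        · exfalso
          apply hz
          change k i (w ++ [a]) • tl j (w ++ [a]) F = 0
          rw [tl_append, if_neg ha, smul_zero])
    rw [← h]
    refine tsum_congr fun w => ?_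
    rw [tl_append, if_pos rfl]
  rw [← h1, ← h2]
  refine tsum_congr fun w => ?_
  rw [hC j i w]

/-- the recursion for `G` -/
theorem recG (k : Fin m → List (Fin m) → ℂ) (hK : Kb k) (hC : CY k) [CompleteSpace E]
    (X Y : Fin m → (E →L[ℂ] E)) (e : E) (F : List (Fin m) → E)
    (hXY : ∀ i j f, X i (Y j f) = Y j (X i f)) (hS : Sol k (fun i => X i) e F)
    (B : ℝ) (hB : 0 ≤ B) (hF : ∀ u, ‖F u‖ ≤ B * 4 ^ u.length) (i j : Fin m)
    (u : List (Fin m)) :
    X i (G k (fun i => Y i) e F (u ++ [j])) = G k (fun i => Y i) e F (i :: (u ++ [j])) +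
      hd i (u ++ [j]) (G k (fun i => Y i) e F) +
      ∑' v, k i v • G k (fun i => Y i) e F (v ++ (u ++ [j])) := by
  have hstep : ∀ (i : Fin m) (u : List (Fin m)),
    X i (F u) = F (i :: u) + hd i u F + ∑' v : List (Fin m), k i v • F (v ++ u) := hS.step
  -- summability
  have s1 : Summable (fun z => k j z • F (u ++ z)) := (sm k hK j _ _ (len_bd' F B hF u)).1
  have s2 : Summable (fun v => k i v • F (v ++ u)) := (sm k hK i _ _ (len_bd F B hF u)).1
  have s3 : Summable (fun z => k j z • F ((i :: u) ++ z)) :=
    (sm k hK j _ _ (len_bd' F B hF (i :: u))).1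
  have s4 : Summable (fun z => k j z • hd i (u ++ z) F) := by
    refine (sm k hK j _ (B * 4 ^ u.length) fun z => ?_).1
    refine (hd_bd i F B hB hF (u ++ z)).trans (le_of_eq ?_)
    rw [List.length_append, pow_add]; ring
  have s5 : Summable (fun z => k j z • ∑' v, k i v • F (v ++ (u ++ z))) := by
    refine (sm k hK j _ ((B * 4 ^ u.length) / 4) fun z => ?_).1
    refine (sm k hK i _ _ (len_bd F B hF (u ++ z))).2.trans (le_of_eq ?_)
    rw [List.length_append, pow_add]; ring
  have s6 : Summable (fun v => k i v • tl j (v ++ u) F) := by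
    refine (sm k hK i _ (B * 4 ^ u.length) fun z => ?_).1
    refine (tl_bd j F B hB hF (z ++ u)).trans (le_of_eq ?_)
    rw [List.length_append, pow_add]; ring
  have s7 : Summable (fun v => k i v • ∑' z, k j z • F ((v ++ u) ++ z)) := by
    refine (sm k hK i _ ((B * 4 ^ u.length) / 4) fun z => ?_).1
    refine (sm k hK j _ _ (len_bd' F B hF (z ++ u))).2.trans (le_of_eq ?_)
    rw [List.length_append, pow_add]; ring
  have s8 : Summable (fun v => k i v • Y j (F (v ++ u))) := by
    have := (Y j).summable s2
    refine this.congr fun v => ?_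
    exact (Y j).map_smul _ _
  -- Claim A
  have hA : X i (∑' z, k j z • F (u ++ z)) = ∑' z, k j z • F ((i :: u) ++ z) +
      ∑' z, k j z • hd i (u ++ z) F + ∑' z, k j z • ∑' v, k i v • F (v ++ (u ++ z)) := by
    rw [(X i).map_tsum s1, ← s3.tsum_add s4, ← (s3.add s4).tsum_add s5]
    refine tsum_congr fun z => ?_
    rw [(X i).map_smul, hstep, smul_add, smul_add]
    rfl
  -- Claim B
  have hB' : Y j (∑' v, k i v • F (v ++ u)) = ∑' v, k i v • Y j (F (v ++ u)) := by
    rw [(Y j).map_tsum s2]
    exact tsum_congr fun v => (Y j).map_smul _ _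
  -- Claim C
  have hC' : ∑' v, k i v • G k (fun i => Y i) e F (v ++ (u ++ [j])) =
      ∑' v, k i v • Y j (F (v ++ u)) - ∑' v, k i v • tl j (v ++ u) F -
        ∑' v, k i v • ∑' z, k j z • F ((v ++ u) ++ z) := by
    rw [← s8.tsum_sub s6, ← (s8.sub s6).tsum_sub s7]
    refine tsum_congr fun v => ?_
    rw [← List.append_assoc, G_append, smul_sub, smul_sub]
  have hD := fub k hK i j F B hF u
  have hG1 : G k (fun i => Y i) e F (i :: (u ++ [j])) = Y j (F (i :: u)) - tl j (i :: u) F -
      ∑' v, k j v • F ((i :: u) ++ v) := G_append k (fun i => Y i) e F (i :: u) j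
  rw [hC', hG1, G_append, map_sub, map_sub, hA, hXY, hstep i u, map_add, map_add, hB', hD]
  -- it remains
  have key : Y j (hd i u F) - X i (tl j u F) - ∑' z, k j z • hd i (u ++ z) F + tl j (i :: u) F -
      hd i (u ++ [j]) (G k (fun i => Y i) e F) + ∑' v, k i v • tl j (v ++ u) F = 0 := by
    rcases u with _ | ⟨a, r⟩
    · have h1 : hd i ([] : List (Fin m)) F = 0 := rfl
      have h2 : tl j ([i] : List (Fin m)) F = if i = j then F [] else 0 :=
        tl_append j i [] F
      have h3 : hd i [j] (G k (fun i => Y i) e F) = if j = i then e else 0 := rfl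
      have h4 : ∀ v : List (Fin m), v ++ [] = v := List.append_nil
      simp only [h1, tl_nil, h2, h3, h4, List.nil_append, map_zero, cyc k hC i j F, hS.nil]
      by_cases hij : i = j
      · rw [if_pos hij, if_pos hij.symm]; abel
      · rw [if_neg hij, if_neg (Ne.symm hij)]; abel
    · -- the left hand side
      have h1 : Y j (hd i (a :: r) F) - ∑' z, k j z • hd i ((a :: r) ++ z) F -
          hd i ((a :: r) ++ [j]) (G k (fun i => Y i) e F) = if a = i then tl j r F else 0 := by
        have e1 : ∀ z, hd i ((a :: r) ++ z) F = if a = i then F (r ++ z) else 0 := fun z => rfl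
        have e2 : hd i ((a :: r) ++ [j]) (G k (fun i => Y i) e F) =
          if a = i then G k (fun i => Y i) e F (r ++ [j]) else 0 := rfl
        rw [hd_cons, e2]
        simp only [e1]
        by_cases ha : a = i
        · simp only [if_pos ha]
          rw [G_append]
          abel
        · simp only [if_neg ha, smul_zero, tsum_zero, map_zero, sub_zero]
      obtain ⟨s, b, hsb⟩ : ∃ s b, a :: r = s ++ [b] := by
        rcases List.eq_nil_or_concat (a :: r) with h | ⟨s, b, h⟩
        · exact absurd h (List.cons_ne_nil a r)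
        · exact ⟨s, b, by rw [h, List.concat_eq_append]⟩
      have h2 : - X i (tl j (a :: r) F) + tl j (i :: (a :: r)) F +
          ∑' v, k i v • tl j (v ++ (a :: r)) F = if b = j then - hd i s F else 0 := by
        have e1 : ∀ v, tl j (v ++ (a :: r)) F = if b = j then F (v ++ s) else 0 := by
          intro v
          rw [hsb, ← List.append_assoc, tl_append]
        have e2 : tl j (i :: (a :: r)) F = if b = j then F (i :: s) else 0 := by
          have : i :: (a :: r) = (i :: s) ++ [b] := by rw [hsb]; rfl
          rw [this, tl_append]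
        have e3 : tl j (a :: r) F = if b = j then F s else 0 := by
          rw [hsb, tl_append]
        rw [e2, e3]
        simp only [e1]
        by_cases hb : b = j
        · simp only [if_pos hb]
          rw [hstep i s]
          abel
        · simp only [if_neg hb, smul_zero, tsum_zero, map_zero, neg_zero, add_zero]
      have h3 : (if a = i then tl j r F else 0) + (if b = j then - hd i s F else 0) = 0 := by
        rcases List.eq_nil_or_concat r with h | ⟨r', b', h⟩
        · subst h
          have hs : s = [] := by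
            have := congrArg List.length hsb
            simp only [List.length_cons, List.length_nil, List.length_append] at this
            exact List.length_eq_zero_iff.1 (by omega)
          subst hs
          have e1 : hd i ([] : List (Fin m)) F = 0 := rfl
          rw [tl_nil, e1]
          simp
        · rw [List.concat_eq_append] at h
          subst h
          have h5 : (a :: r') ++ [b'] = s ++ [b] := by rw [← hsb]; rfl
          obtain ⟨h6, h7⟩ := List.append_inj' h5 rfl
          obtain rfl : b' = b := by simpa using h7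
          subst h6
          rw [tl_append, hd_cons]
          by_cases ha : a = i <;> by_cases hb : b' = j <;> simp [ha, hb]
      have : Y j (hd i (a :: r) F) - X i (tl j (a :: r) F) -
          ∑' z, k j z • hd i ((a :: r) ++ z) F + tl j (i :: (a :: r)) F -
          hd i ((a :: r) ++ [j]) (G k (fun i => Y i) e F) +
          ∑' v, k i v • tl j (v ++ (a :: r)) F =
          (Y j (hd i (a :: r) F) - ∑' z, k j z • hd i ((a :: r) ++ z) F -
            hd i ((a :: r) ++ [j]) (G k (fun i => Y i) e F)) +
          (- X i (tl j (a :: r) F) + tl j (i :: (a :: r)) F +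
            ∑' v, k i v • tl j (v ++ (a :: r)) F) := by abel
      rw [this, h1, h2, h3]
  rw [← sub_eq_zero, ← key]
  abel

end RRC

open RRC in
theorem rrc_thm (hRUN : RUNStmt) : RRCStmt := by
  intro m k hK hC E _ _ _ X Y e F hX hY hXY hXe hS j u
  obtain ⟨B, hF⟩ := hS.bdd
  have hB : 0 ≤ B := by
    have := (norm_nonneg _).trans (hF [])
    simpa using this
  obtain ⟨G₀, hG₀⟩ : ∃ G₀, G₀ = G k (fun i => Y i) e F := ⟨_, rfl⟩
  have hGn : G₀ [] = e := by rw [hG₀, G_nil]
  have hGa : ∀ (u : List (Fin m)) (j : Fin m),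
      G₀ (u ++ [j]) = Y j (F u) - tl j u F - ∑' v, k j v • F (u ++ v) := by
    intro u j
    rw [hG₀, G_append]
  have hGr : ∀ (i j : Fin m) (u : List (Fin m)), X i (G₀ (u ++ [j])) = G₀ (i :: (u ++ [j])) +
      hd i (u ++ [j]) G₀ + ∑' v, k i v • G₀ (v ++ (u ++ [j])) := by
    intro i j u
    rw [hG₀]
    exact RRC.recG k hK hC X Y e F hXY hS B hB hF i j u
  have hstep : ∀ (i : Fin m) (u : List (Fin m)),
    X i (F u) = F (i :: u) + hd i u F + ∑' v : List (Fin m), k i v • F (v ++ u) := hS.step
  have hGb : ∀ u, ‖G₀ u‖ ≤ B * 4 ^ u.length := by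
    intro u
    rcases List.eq_nil_or_concat u with h | ⟨u', j, h⟩
    · rw [h, hGn, ← hS.nil]
      exact hF []
    · rw [List.concat_eq_append] at h
      rw [h, hGa]
      have e1 : ‖Y j (F u')‖ ≤ 5 / 2 * (B * 4 ^ u'.length) :=
        ((Y j).le_opNorm _).trans (mul_le_mul (hY j) (hF u') (norm_nonneg _) (by norm_num))
      have e2 := tl_bd j F B hB hF u'
      have e3 := (sm k hK j _ _ (len_bd' F B hF u')).2
      have e4 : (0 : ℝ) ≤ B * 4 ^ u'.length := by positivity
      have e5 : ‖Y j (F u') - tl j u' F - ∑' v, k j v • F (u' ++ v)‖ ≤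
          ‖Y j (F u')‖ + ‖tl j u' F‖ + ‖∑' v, k j v • F (u' ++ v)‖ :=
        (norm_sub_le _ _).trans (add_le_add_left (norm_sub_le _ _) _)
      rw [List.length_append, List.length_singleton, pow_succ]
      linarith
  have hrun := hRUN m k hK (fun u => ‖G₀ u - F u‖) (2 * B) (fun u => norm_nonneg _)
    (fun u => (norm_sub_le _ _).trans (by have h1 := hGb u; have h2 := hF u; linarith))
    (by
      change ‖G₀ [] - F []‖ = 0
      rw [hGn, hS.nil, sub_self, norm_zero])
    (by
      intro i u
      rcases List.eq_nil_or_concat u with h | ⟨u', j, h⟩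
      · subst h
        have h1 : G₀ [i] = F [i] := by
          have e1 : G₀ [i] = Y i (F []) - tl i [] F - ∑' v, k i v • F ([] ++ v) := hGa [] i
          have e2 := hstep i []
          have e3 : hd i ([] : List (Fin m)) F = 0 := rfl
          simp only [List.append_nil, e3, add_zero] at e2
          rw [e1, hS.nil, ← hXe, ← hS.nil, e2, tl_nil]
          simp only [List.nil_append]
          abel
        change ‖G₀ [i] - F [i]‖ ≤ _
        rw [h1, sub_self, norm_zero]
        have e4 : 0 ≤ ∑' v : List (Fin m), ‖k i v‖ * ‖G₀ (v ++ []) - F (v ++ [])‖ :=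
          tsum_nonneg fun v => by positivity
        have e5 : hd i ([] : List (Fin m)) (fun u => ‖G₀ u - F u‖) = 0 := rfl
        rw [e5]
        have e6 : 0 ≤ 5 / 2 * ‖G₀ [] - F []‖ := by positivity
        linarith
      · rw [List.concat_eq_append] at h
        subst h
        have sG : Summable fun v => k i v • G₀ (v ++ (u' ++ [j])) :=
          (sm k hK i _ _ (len_bd G₀ B hGb (u' ++ [j]))).1
        have sF : Summable fun v => k i v • F (v ++ (u' ++ [j])) :=
          (sm k hK i _ _ (len_bd F B hF (u' ++ [j]))).1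
        have e1 : G₀ (i :: (u' ++ [j])) - F (i :: (u' ++ [j])) =
            X i (G₀ (u' ++ [j]) - F (u' ++ [j])) -
            (hd i (u' ++ [j]) G₀ - hd i (u' ++ [j]) F) -
            ∑' v, k i v • (G₀ (v ++ (u' ++ [j])) - F (v ++ (u' ++ [j]))) := by
          rw [map_sub, hGr i j u', hstep i (u' ++ [j])]
          simp only [smul_sub]
          rw [sG.tsum_sub sF]
          abel
        have e2 : ‖X i (G₀ (u' ++ [j]) - F (u' ++ [j]))‖ ≤
            5 / 2 * ‖G₀ (u' ++ [j]) - F (u' ++ [j])‖ :=
          ((X i).le_opNorm _).trans (mul_le_mul_of_nonneg_right (hX i) (norm_nonneg _))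
        have e3 : ‖hd i (u' ++ [j]) G₀ - hd i (u' ++ [j]) F‖ =
            hd i (u' ++ [j]) fun u => ‖G₀ u - F u‖ := by
          rcases u' ++ [j] with _ | ⟨a, w⟩
          · change ‖(0 : E) - 0‖ = 0
            rw [sub_zero, norm_zero]
          · rw [hd_cons, hd_cons, hd_cons]
            by_cases ha : a = i
            · simp only [if_pos ha]
            · simp only [if_neg ha, sub_zero, norm_zero]
        have sN : Summable fun v : List (Fin m) =>
            ‖k i v‖ * ‖G₀ (v ++ (u' ++ [j])) - F (v ++ (u' ++ [j]))‖ := by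
          have h1 := (hK i).1.mul_left (2 * B * 4 ^ (u' ++ [j]).length)
          refine Summable.of_nonneg_of_le (fun v => by positivity) (fun v => ?_) h1
          have h2 := len_bd G₀ B hGb (u' ++ [j]) v
          have h3 := len_bd F B hF (u' ++ [j]) v
          have h4 : ‖G₀ (v ++ (u' ++ [j])) - F (v ++ (u' ++ [j]))‖ ≤
              2 * B * 4 ^ (u' ++ [j]).length * 4 ^ v.length :=
            (norm_sub_le _ _).trans (by linarith)
          calc ‖k i v‖ * ‖G₀ (v ++ (u' ++ [j])) - F (v ++ (u' ++ [j]))‖
              ≤ ‖k i v‖ * (2 * B * 4 ^ (u' ++ [j]).length * 4 ^ v.length) :=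
                mul_le_mul_of_nonneg_left h4 (norm_nonneg _)
            _ = _ := by ring
        have e4 : ‖∑' v, k i v • (G₀ (v ++ (u' ++ [j])) - F (v ++ (u' ++ [j])))‖ ≤
            ∑' v : List (Fin m), ‖k i v‖ * ‖G₀ (v ++ (u' ++ [j])) - F (v ++ (u' ++ [j]))‖ :=
          tsum_of_norm_bounded sN.hasSum fun v => by rw [norm_smul]
        change ‖G₀ (i :: (u' ++ [j])) - F (i :: (u' ++ [j]))‖ ≤ _
        rw [e1, ← e3]
        refine ((norm_sub_le _ _).trans (add_le_add (norm_sub_le _ _) e4)).trans ?_
        linarith) (u ++ [j])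
  have hfin : G₀ (u ++ [j]) = F (u ++ [j]) := sub_eq_zero.1 (norm_eq_zero.1 hrun)
  rw [← hfin, hGa]
  abel

end Pool.CGR
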